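import Mathlib

/-!
# MP_071e18_gt: the boundary overlap ratio of congruent triangles can exceed `csc(θ/2)`

The plane is `ℂ`. Take the right triangle `K` with vertices `0`, `63`, `84 i` (a 3-4-5 triangle)
and its mirror image `K'` with vertices `-1-i`, `-1+62i`, `83-i`. The part of the boundary of
`K` inside `K'` has length at least `63 + 61 + 40 = 164` and the part of the boundary of `K'`
inside `K` has length at most `50`, while `csc(θ/2) = √10 < 164/50`.
-/

open MeasureTheory Set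
open scoped EuclideanGeometry ENNReal

namespace Pool.Agent.Results.MP_071e18_gt.Scalene

/-- `K` and `K'` overlap: their interiors intersect and `K ≠ K'`. -/
def Overlap (K K' : Set ℂ) : Prop := (interior K ∩ interior K').Nonempty ∧ K ≠ K'

/-- The ratio `length(∂K ∩ K') / length(∂K' ∩ K)`, where length is one-dimensional Hausdorff
measure. -/
noncomputable def ratio (K K' : Set ℂ) : ℝ≥0∞ :=
  μH[1] (frontier K ∩ K') / μH[1] (frontier K' ∩ K)

/-- `M(T)`: the supremum of the ratio over all overlapping pairs of sets congruent to `T`. -/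
noncomputable def M (T : Set ℂ) : ℝ≥0∞ :=
  ⨆ (e : ℂ ≃ᵢ ℂ) (e' : ℂ ≃ᵢ ℂ) (_ : Overlap (e '' T) (e' '' T)), ratio (e '' T) (e' '' T)

/-- The smallest angle of the triangle `ABC`. -/
noncomputable def smallestAngle (A B C : ℂ) : ℝ := min (∠ B A C) (min (∠ A B C) (∠ A C B))

/-- the triangle -/
def K : Set ℂ := convexHull ℝ {0, 63, 84 * Complex.I}

lemma K_eq : K = {z : ℂ | 0 ≤ z.re ∧ 0 ≤ z.im ∧ 4 * z.re + 3 * z.im ≤ 252} := by
  apply Set.Subset.antisymm
  · apply convexHull_min
    · intro z hz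
      simp only [Set.mem_insert_iff, Set.mem_singleton_iff] at hz
      rcases hz with rfl | rfl | rfl <;> simp <;> norm_num
    · intro z hz w hw a b ha hb hab
      obtain ⟨h1, h2, h3⟩ := hz
      obtain ⟨k1, k2, k3⟩ := hw
      simp only [Set.mem_ofPred_eq, Complex.add_re, Complex.add_im, Complex.real_smul,
        Complex.mul_re, Complex.mul_im, Complex.ofReal_re, Complex.ofReal_im]
      refine ⟨by nlinarith [mul_nonneg ha h1, mul_nonneg hb k1],
        by nlinarith [mul_nonneg ha h2, mul_nonneg hb k2], ?_⟩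
      have e1 := mul_le_mul_of_nonneg_left h3 ha
      have e2 := mul_le_mul_of_nonneg_left k3 hb
      have : a * 252 + b * 252 = 252 := by rw [← add_mul, hab]; norm_num
      nlinarith
  · rintro z ⟨h1, h2, h3⟩
    have key := (convex_convexHull ℝ ({0, 63, 84 * Complex.I} : Set ℂ)).sum_mem
      (t := (Finset.univ : Finset (Fin 3)))
      (w := ![1 - z.re / 63 - z.im / 84, z.re / 63, z.im / 84])
      (z := ![0, 63, 84 * Complex.I]) ?_ ?_ ?_
    · have e : z = ∑ i, (![1 - z.re / 63 - z.im / 84, z.re / 63, z.im / 84] : Fin 3 → ℝ) i •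
          (![0, 63, 84 * Complex.I] : Fin 3 → ℂ) i := by
        apply Complex.ext <;> simp [Fin.sum_univ_three]
      rw [e]
      exact key
    · intro i _
      fin_cases i <;> simp
      · linarith
      · positivity
      · positivity
    · simp [Fin.sum_univ_three]
      ring
    · intro i _
      apply subset_convexHull
      fin_cases i <;> simp

/-- reflection followed by a translation -/
noncomputable def e : ℂ ≃ᵢ ℂ :=
  IsometryEquiv.mk' (fun z => ⟨z.im - 1, z.re - 1⟩) (fun z => ⟨z.im + 1, z.re + 1⟩)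
    (fun z => by apply Complex.ext <;> simp)
    (Isometry.of_dist_eq fun z w => by
      rw [Complex.dist_eq_re_im, Complex.dist_eq_re_im]
      congr 1
      simp
      ring)

lemma e_apply (z : ℂ) : e z = ⟨z.im - 1, z.re - 1⟩ := rfl

lemma K'_eq : e '' K = {z : ℂ | -1 ≤ z.re ∧ -1 ≤ z.im ∧ 3 * z.re + 4 * z.im ≤ 245} := by
  rw [K_eq]
  ext z
  constructor
  · rintro ⟨w, ⟨h1, h2, h3⟩, rfl⟩
    rw [e_apply]
    refine ⟨?_, ?_, ?_⟩ <;> simp <;> linarith
  · rintro ⟨h1, h2, h3⟩
    refine ⟨⟨z.im + 1, z.re + 1⟩, ⟨?_, ?_, ?_⟩, ?_⟩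
    · show 0 ≤ z.im + 1
      linarith
    · show 0 ≤ z.re + 1
      linarith
    · show 4 * (z.im + 1) + 3 * (z.re + 1) ≤ 252
      linarith
    · rw [e_apply]; apply Complex.ext <;> simp

lemma front (S : Set ℂ) (l : ℂ →L[ℝ] ℝ) (hl : Function.Surjective l) (c : ℝ)
    (hS : S ⊆ {z | c ≤ l z}) (z : ℂ) (hz : z ∈ S) (hc : l z = c) : z ∈ frontier S := by
  refine ⟨subset_closure hz, fun hi => ?_⟩
  have h1 := interior_mono hS hi
  have h2 : {z | c ≤ l z} = l ⁻¹' Set.Ici c := rfl
  rw [h2, ContinuousLinearMap.interior_preimage _ hl, interior_Ici] at h1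
  have h3 : c < l z := h1
  linarith

lemma isClosed_K' : IsClosed (e '' K) := by
  have h : e '' K = {z : ℂ | -1 ≤ z.re} ∩ ({z : ℂ | -1 ≤ z.im} ∩
      {z : ℂ | 3 * z.re + 4 * z.im ≤ 245}) := by
    rw [K'_eq]; rfl
  rw [h]
  refine (isClosed_le continuous_const Complex.continuous_re).inter
    ((isClosed_le continuous_const Complex.continuous_im).inter
    (isClosed_le ?_ continuous_const))
  exact (continuous_const.mul Complex.continuous_re).add
    (continuous_const.mul Complex.continuous_im)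

lemma interior_K' (z : ℂ) (h1 : -1 < z.re) (h2 : -1 < z.im) (h3 : 3 * z.re + 4 * z.im < 245) :
    z ∈ interior (e '' K) := by
  rw [mem_interior]
  refine ⟨{z : ℂ | -1 < z.re} ∩ ({z : ℂ | -1 < z.im} ∩ {z : ℂ | 3 * z.re + 4 * z.im < 245}),
    ?_, ?_, h1, h2, h3⟩
  · rw [K'_eq]
    rintro w ⟨k1, k2, k3⟩
    exact ⟨le_of_lt k1, le_of_lt k2, le_of_lt k3⟩
  · refine (isOpen_lt continuous_const Complex.continuous_re).inter
      ((isOpen_lt continuous_const Complex.continuous_im).inter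
      (isOpen_lt ?_ continuous_const))
    exact (continuous_const.mul Complex.continuous_re).add
      (continuous_const.mul Complex.continuous_im)

lemma interior_K (z : ℂ) (h1 : 0 < z.re) (h2 : 0 < z.im) (h3 : 4 * z.re + 3 * z.im < 252) :
    z ∈ interior K := by
  rw [mem_interior]
  refine ⟨{z : ℂ | 0 < z.re} ∩ ({z : ℂ | 0 < z.im} ∩ {z : ℂ | 4 * z.re + 3 * z.im < 252}),
    ?_, ?_, h1, h2, h3⟩
  · rw [K_eq]
    rintro w ⟨k1, k2, k3⟩
    exact ⟨le_of_lt k1, le_of_lt k2, le_of_lt k3⟩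
  · refine (isOpen_lt continuous_const Complex.continuous_re).inter
      ((isOpen_lt continuous_const Complex.continuous_im).inter
      (isOpen_lt ?_ continuous_const))
    exact (continuous_const.mul Complex.continuous_re).add
      (continuous_const.mul Complex.continuous_im)

lemma overlap : Overlap K (e '' K) := by
  constructor
  · refine ⟨⟨1, 1⟩, interior_K _ ?_ ?_ ?_, interior_K' _ ?_ ?_ ?_⟩ <;> norm_num
  · intro h
    have h1 : (⟨-1, -1⟩ : ℂ) ∈ e '' K := by
      rw [K'_eq]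
      refine ⟨?_, ?_, ?_⟩ <;> norm_num
    rw [← h, K_eq] at h1
    have : (0 : ℝ) ≤ -1 := h1.1
    norm_num at this

/-- the boundary of `K'` inside `K` -/
lemma upper : μH[1] (frontier (e '' K) ∩ K) ≤ ENNReal.ofReal 50 := by
  have hsub : frontier (e '' K) ∩ K ⊆ segment ℝ (⟨-1, 62⟩ : ℂ) ⟨39, 32⟩ := by
    rintro z ⟨hz, hK⟩
    have hz1 : z ∈ e '' K := by
      have := hz.1
      rwa [isClosed_K'.closure_eq] at this
    have hz2 : z ∉ interior (e '' K) := hz.2
    rw [K'_eq] at hz1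
    rw [K_eq] at hK
    obtain ⟨a1, a2, a3⟩ := hz1
    obtain ⟨b1, b2, b3⟩ := hK
    have h3 : 3 * z.re + 4 * z.im = 245 := by
      by_contra hne
      exact hz2 (interior_K' z (by linarith) (by linarith) (lt_of_le_of_ne a3 hne))
    rw [segment_eq_image]
    refine ⟨(z.re + 1) / 40, ⟨by linarith, ?_⟩, ?_⟩
    · rw [div_le_one (by norm_num)]
      nlinarith
    · apply Complex.ext
      · simp; ring
      · simp; linarith
  refine (measure_mono hsub).trans ?_
  rw [hausdorffMeasure_segment, edist_dist]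
  apply ENNReal.ofReal_le_ofReal
  rw [Complex.dist_eq_re_im]
  apply le_of_eq
  rw [show ((-1 : ℝ) - 39) ^ 2 + (62 - 32) ^ 2 = 50 ^ 2 by norm_num]
  exact Real.sqrt_sq (by norm_num)

lemma measure_point (x : ℂ) : μH[1] ({x} : Set ℂ) = 0 := by
  rw [← segment_same ℝ x, hausdorffMeasure_segment, edist_self]

lemma measurable_seg (x y : ℂ) : MeasurableSet (segment ℝ x y) := by
  rw [segment_eq_image]
  exact (isCompact_Icc.image (by fun_prop)).measurableSet

/-- three segments in the boundary of `K` inside `K'` -/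
lemma lower : ENNReal.ofReal 164 ≤ μH[1] (frontier K ∩ e '' K) := by
  set S1 : Set ℂ := segment ℝ 0 (⟨63, 0⟩ : ℂ) with hS1
  set S2 : Set ℂ := segment ℝ 0 (⟨0, 61⟩ : ℂ) with hS2
  set S3 : Set ℂ := segment ℝ (⟨63, 0⟩ : ℂ) ⟨39, 32⟩ with hS3
  have m1 : μH[1] S1 = ENNReal.ofReal 63 := by
    rw [hausdorffMeasure_segment, edist_dist, Complex.dist_eq_re_im]
    congr 1
    simp
  have m2 : μH[1] S2 = ENNReal.ofReal 61 := by
    rw [hausdorffMeasure_segment, edist_dist, Complex.dist_eq_re_im]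
    congr 1
    simp
  have m3 : μH[1] S3 = ENNReal.ofReal 40 := by
    rw [hausdorffMeasure_segment, edist_dist, Complex.dist_eq_re_im]
    congr 1
    rw [show ((63 : ℝ) - 39) ^ 2 + (0 - 32) ^ 2 = 40 ^ 2 by norm_num]
    exact Real.sqrt_sq (by norm_num)
  have c2 : MeasurableSet S2 := measurable_seg _ _
  have c3 : MeasurableSet S3 := measurable_seg _ _
  have r1 : ∀ z ∈ S1, 0 ≤ z.re ∧ z.re ≤ 63 ∧ z.im = 0 := by
    intro z hz
    rw [hS1, segment_eq_image] at hz
    obtain ⟨t, ⟨t0, t1⟩, rfl⟩ := hz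
    refine ⟨?_, ?_, ?_⟩ <;> simp <;> linarith
  have r2 : ∀ z ∈ S2, z.re = 0 ∧ 0 ≤ z.im ∧ z.im ≤ 61 := by
    intro z hz
    rw [hS2, segment_eq_image] at hz
    obtain ⟨t, ⟨t0, t1⟩, rfl⟩ := hz
    refine ⟨?_, ?_, ?_⟩ <;> simp <;> linarith
  have r3 : ∀ z ∈ S3, 39 ≤ z.re ∧ z.re ≤ 63 ∧ 0 ≤ z.im ∧ 4 * z.re + 3 * z.im = 252 := by
    intro z hz
    rw [hS3, segment_eq_image] at hz
    obtain ⟨t, ⟨t0, t1⟩, rfl⟩ := hz
    refine ⟨?_, ?_, ?_, ?_⟩ <;> simp <;> linarith
  have i12 : μH[1] (S1 ∩ S2) = 0 := by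
    apply measure_mono_null (t := {0}) _ (measure_point _)
    rintro z ⟨h1, h2⟩
    have a1 := r1 z h1
    have a2 := r2 z h2
    exact Complex.ext a2.1 a1.2.2
  have i3 : μH[1] ((S1 ∪ S2) ∩ S3) = 0 := by
    apply measure_mono_null (t := {(⟨63, 0⟩ : ℂ)}) _ (measure_point _)
    rintro z ⟨h1 | h1, h2⟩
    · have a1 := r1 z h1
      have a2 := r3 z h2
      exact Complex.ext (by show z.re = 63; linarith [a1.2.2, a2.2.2.2]) a1.2.2
    · have a1 := r2 z h1
      have a2 := r3 z h2
      linarith [a1.1, a2.1]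
  have u12 : μH[1] (S1 ∪ S2) = ENNReal.ofReal 124 := by
    have := measure_union_add_inter (μ := μH[1]) S1 c2
    rw [i12, add_zero, m1, m2, ← ENNReal.ofReal_add (by norm_num) (by norm_num)] at this
    rw [this]; norm_num
  have u : μH[1] (S1 ∪ S2 ∪ S3) = ENNReal.ofReal 164 := by
    have := measure_union_add_inter (μ := μH[1]) (S1 ∪ S2) c3
    rw [i3, add_zero, u12, m3, ← ENNReal.ofReal_add (by norm_num) (by norm_num)] at this
    rw [this]; norm_num
  rw [← u]
  apply measure_mono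
  have hre : Function.Surjective Complex.reCLM := fun x => ⟨⟨x, 0⟩, by simp⟩
  have him : Function.Surjective Complex.imCLM := fun x => ⟨⟨0, x⟩, by simp⟩
  have hmix : Function.Surjective (-((4 : ℝ) • Complex.reCLM + (3 : ℝ) • Complex.imCLM)) := by
    intro x
    exact ⟨⟨-x / 4, 0⟩, by simp; ring⟩
  rintro z ((hz | hz) | hz)
  · obtain ⟨a1, a2, a3⟩ := r1 z hz
    have hK : z ∈ K := by rw [K_eq]; exact ⟨a1, a3.ge, by linarith⟩
    refine ⟨front K Complex.imCLM him 0 ?_ z hK a3, ?_⟩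
    · rw [K_eq]
      rintro w ⟨_, w2, _⟩
      exact w2
    · rw [K'_eq]; exact ⟨by linarith, by linarith, by linarith⟩
  · obtain ⟨a1, a2, a3⟩ := r2 z hz
    have hK : z ∈ K := by rw [K_eq]; exact ⟨a1.ge, a2, by linarith⟩
    refine ⟨front K Complex.reCLM hre 0 ?_ z hK a1, ?_⟩
    · rw [K_eq]
      rintro w ⟨w1, _, _⟩
      exact w1
    · rw [K'_eq]; exact ⟨by linarith, by linarith, by linarith⟩
  · obtain ⟨a1, a2, a3, a4⟩ := r3 z hz
    have hK : z ∈ K := by rw [K_eq]; exact ⟨by linarith, a3, by linarith⟩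
    refine ⟨front K (-((4 : ℝ) • Complex.reCLM + (3 : ℝ) • Complex.imCLM)) hmix (-252) ?_ z hK ?_,
      ?_⟩
    · rw [K_eq]
      rintro w ⟨_, _, w3⟩
      simp only [Set.mem_ofPred_eq]
      simp
      linarith
    · simp
      linarith
    · rw [K'_eq]; exact ⟨by linarith, by linarith, by linarith⟩

lemma ratio_gt : ENNReal.ofReal (164 / 50) ≤ ratio K (e '' K) := by
  unfold ratio
  rw [ENNReal.ofReal_div_of_pos (by norm_num)]
  exact ENNReal.div_le_div lower upper

lemma angle_eq (a b c : ℂ) :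
    ∠ a b c = Real.arccos (((a.re - b.re) * (c.re - b.re) + (a.im - b.im) * (c.im - b.im)) /
      (√((a.re - b.re) ^ 2 + (a.im - b.im) ^ 2) * √((c.re - b.re) ^ 2 + (c.im - b.im) ^ 2))) := by
  unfold EuclideanGeometry.angle InnerProductGeometry.angle
  congr 1
  rw [Complex.inner, vsub_eq_sub, vsub_eq_sub, ← dist_eq_norm, ← dist_eq_norm,
    Complex.dist_eq_re_im, Complex.dist_eq_re_im]
  congr 1
  simp
  try ring

lemma sqrt_sq' (x y : ℝ) (hy : 0 ≤ y) (h : x = y ^ 2) : √x = y := by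
  rw [h]; exact Real.sqrt_sq hy

lemma angle_ACB : ∠ (0 : ℂ) (84 * Complex.I) 63 = Real.arccos (4 / 5) := by
  rw [angle_eq]
  congr 1
  rw [sqrt_sq' _ 84 (by norm_num) (by simp), sqrt_sq' _ 105 (by norm_num) (by simp; norm_num)]
  simp
  norm_num

lemma angle_ABC : ∠ (0 : ℂ) 63 (84 * Complex.I) = Real.arccos (3 / 5) := by
  rw [angle_eq]
  congr 1
  rw [sqrt_sq' _ 63 (by norm_num) (by simp), sqrt_sq' _ 105 (by norm_num) (by simp; norm_num)]
  simp
  norm_num

lemma angle_BAC : ∠ (63 : ℂ) 0 (84 * Complex.I) = Real.arccos 0 := by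
  rw [angle_eq]
  congr 1
  simp

lemma smallest : smallestAngle 0 63 (84 * Complex.I) = Real.arccos (4 / 5) := by
  unfold smallestAngle
  rw [angle_BAC, angle_ABC, angle_ACB]
  have h1 : Real.arccos (4 / 5) ≤ Real.arccos (3 / 5) :=
    Real.arccos_le_arccos (by norm_num)
  have h2 : Real.arccos (4 / 5) ≤ Real.arccos 0 :=
    Real.arccos_le_arccos (by norm_num)
  rw [min_eq_right h1, min_eq_right h2]

lemma csc_eq : 1 / Real.sin (smallestAngle 0 63 (84 * Complex.I) / 2) = √10 := by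
  rw [smallest, Real.sin_half_eq_sqrt (Real.arccos_nonneg _)
    (by linarith [Real.arccos_le_pi (4 / 5), Real.pi_pos]),
    Real.cos_arccos (by norm_num) (by norm_num)]
  rw [show ((1 : ℝ) - 4 / 5) / 2 = 10⁻¹ by norm_num, Real.sqrt_inv, one_div, inv_inv]

lemma indep : AffineIndependent ℝ ![(0 : ℂ), 63, 84 * Complex.I] := by
  rw [affineIndependent_iff_of_fintype]
  intro w hw h
  rw [Finset.weightedVSub_eq_linear_combination Finset.univ hw] at h
  have h0 := congrArg Complex.re h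
  have h1 := congrArg Complex.im h
  simp [Fin.sum_univ_three] at h0 h1 hw
  intro i
  fin_cases i
  · show w 0 = 0
    linarith
  · exact h0
  · exact h1

/-- Q1 is false: for the 3-4-5 triangle the supremum `M(T)` of the ratio is strictly larger than
`csc(θ/2)`, where `θ` is the smallest angle. -/
theorem result :
    ∃ A B C : ℂ, AffineIndependent ℝ ![A, B, C] ∧
      ENNReal.ofReal (1 / Real.sin (smallestAngle A B C / 2)) < M (convexHull ℝ {A, B, C}) := by
  refine ⟨0, 63, 84 * Complex.I, indep, ?_⟩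
  rw [csc_eq]
  have h1 : ENNReal.ofReal √10 < ENNReal.ofReal (164 / 50) := by
    rw [ENNReal.ofReal_lt_ofReal_iff (by norm_num), Real.sqrt_lt' (by norm_num)]
    norm_num
  refine h1.trans_le (ratio_gt.trans ?_)
  have hr : (IsometryEquiv.refl ℂ) '' K = K := by
    ext z
    constructor
    · rintro ⟨x, hx, rfl⟩
      exact hx
    · intro hz
      exact ⟨z, hz, rfl⟩
  have ho : Overlap ((IsometryEquiv.refl ℂ) '' K) (e '' K) := by rw [hr]; exact overlap
  have : ratio K (e '' K) = ratio ((IsometryEquiv.refl ℂ) '' K) (e '' K) := by rw [hr]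
  rw [this]
  exact le_iSup_of_le (IsometryEquiv.refl ℂ) (le_iSup_of_le e (le_iSup_of_le ho le_rfl))

end Pool.Agent.Results.MP_071e18_gt.Scalene
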